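import Pool.Agent.W26.CT.Stm

/-!
# `ℓ_p^N` is norm-one complemented in `L_p([0,1])`
-/

set_option autoImplicit false
open scoped ENNReal BigOperators
open MeasureTheory Set Function

namespace Pool.Agent.W499.CT.LPart

theorem norm_eq {α : Type} [MeasurableSpace α] (μ : Measure α) (p : ℝ≥0∞) [Fact (1 ≤ p)]
    (hp : p ≠ ∞) (f : Lp ℝ p μ) : ‖f‖ = (∫ x, ‖f x‖ ^ p.toReal ∂μ) ^ (1 / p.toReal) := by
  have hp0 : p ≠ 0 := (lt_of_lt_of_le one_pos (Fact.out : (1 : ℝ≥0∞) ≤ p)).ne'
  rw [Lp.norm_def, (Lp.memLp f).eLpNorm_eq_integral_rpow_norm hp0 hp, ENNReal.toReal_ofReal,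
    one_div]
  exact Real.rpow_nonneg (integral_nonneg fun x => Real.rpow_nonneg (norm_nonneg _) _) _

/-- The step function. -/
noncomputable def phi {α ι : Type} [Fintype ι] (S : ι → Set α) (A : ℝ) (a : ι → ℝ) (x : α) : ℝ :=
  ∑ k, (S k).indicator (fun _ => a k * A) x

theorem phi_on {α ι : Type} [Fintype ι] (S : ι → Set α) (hd : Pairwise (Disjoint on S)) (A : ℝ)
    (a : ι → ℝ) (l : ι) (x : α) (hx : x ∈ S l) : phi S A a x = a l * A := by
  unfold phi
  rw [Finset.sum_eq_single l, indicator_of_mem hx]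
  · intro k _ hk
    refine indicator_of_notMem (fun h => ?_) _
    exact Set.disjoint_left.1 (hd hk) h hx
  · intro h
    exact absurd (Finset.mem_univ l) h

theorem phi_off {α ι : Type} [Fintype ι] (S : ι → Set α) (A : ℝ)
    (a : ι → ℝ) (x : α) (hx : ∀ l, x ∉ S l) : phi S A a x = 0 := by
  unfold phi
  exact Finset.sum_eq_zero fun k _ => indicator_of_notMem (hx k) _

theorem phi_norm {α ι : Type} [Fintype ι] (S : ι → Set α) (hd : Pairwise (Disjoint on S)) (A : ℝ)
    (hA : 0 ≤ A) (a : ι → ℝ) (r : ℝ) (hr : 0 < r) (x : α) :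
    ‖phi S A a x‖ ^ r = ∑ k, (S k).indicator (fun _ => |a k| ^ r * A ^ r) x := by
  by_cases h : ∃ l, x ∈ S l
  · obtain ⟨l, hl⟩ := h
    rw [phi_on S hd A a l x hl, Finset.sum_eq_single l, indicator_of_mem hl, Real.norm_eq_abs,
      abs_mul, abs_of_nonneg hA, Real.mul_rpow (abs_nonneg _) hA]
    · intro k _ hk
      refine indicator_of_notMem (fun h => ?_) _
      exact Set.disjoint_left.1 (hd hk) h hl
    · intro h
      exact absurd (Finset.mem_univ l) h
  · push Not at h
    rw [phi_off S A a x h, norm_zero, Real.zero_rpow hr.ne']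
    symm
    exact Finset.sum_eq_zero fun k _ => indicator_of_notMem (h k) _

/-- The operators, for an abstract family of disjoint sets of equal measure. -/
theorem abs_lp {α : Type} [MeasurableSpace α] (μ : Measure α) [IsFiniteMeasure μ] (p : ℝ≥0∞)
    [Fact (1 ≤ p)] (hp : p ≠ ∞) {ι : Type} [Fintype ι] (S : ι → Set α)
    (hS : ∀ k, MeasurableSet (S k)) (hd : Pairwise (Disjoint on S)) (c : ℝ) (hc : 0 < c)
    (hμ : ∀ k, μ.real (S k) = c) :
    ∃ (J : (ι → ℝ) →ₗ[ℝ] Lp ℝ p μ) (P : Lp ℝ p μ →ₗ[ℝ] (ι → ℝ)),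
      (∀ a, P (J a) = a) ∧
      (∀ a, ‖J a‖ ≤ (∑ k, |a k| ^ p.toReal) ^ (1 / p.toReal)) ∧
      (∀ f, (∑ k, |P f k| ^ p.toReal) ^ (1 / p.toReal) ≤ ‖f‖) := by
  have hp1 : (1 : ℝ≥0∞) ≤ p := Fact.out
  have hp0 : p ≠ 0 := (lt_of_lt_of_le one_pos hp1).ne'
  have hr1 : 1 ≤ p.toReal := by
    rw [← ENNReal.toReal_one]
    exact (ENNReal.toReal_le_toReal ENNReal.one_ne_top hp).2 hp1
  set r := p.toReal with hr
  have hr0 : 0 < r := by linarith
  set A : ℝ := c ^ (-(1 / r)) with hA
  have hA0 : 0 < A := Real.rpow_pos_of_pos hc _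
  have hAr : A ^ r = c⁻¹ := by
    rw [hA, ← Real.rpow_mul hc.le]
    have : -(1 / r) * r = -1 := by
      field_simp
    rw [this, Real.rpow_neg_one]
  set B : ℝ := c ^ (1 / r - 1) with hB
  have hB0 : 0 < B := Real.rpow_pos_of_pos hc _
  have hBr : B ^ r = c * (c ^ r)⁻¹ := by
    rw [hB, ← Real.rpow_mul hc.le]
    have : (1 / r - 1) * r = 1 - r := by
      field_simp
    rw [this, Real.rpow_sub hc, Real.rpow_one, div_eq_mul_inv]
  have hABc : B * (A * c) = 1 := by
    have h1 : c = c ^ (1 : ℝ) := (Real.rpow_one c).symm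
    have : B * (A * c) = c ^ (1 / r - 1) * (c ^ (-(1 / r)) * c ^ (1 : ℝ)) := by
      rw [← h1]
    rw [this, ← Real.rpow_add hc, ← Real.rpow_add hc]
    have : 1 / r - 1 + (-(1 / r) + 1) = 0 := by ring
    rw [this, Real.rpow_zero]
  -- the step functions
  have hmem : ∀ a : ι → ℝ, MemLp (phi S A a) p μ := by
    intro a
    have : phi S A a = ∑ k, (S k).indicator (fun _ => a k * A) := by
      funext x
      rw [Finset.sum_apply]
      rfl
    rw [this]
    exact memLp_finsetSum' _ fun k _ => memLp_indicator_const p (hS k) _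
      (Or.inr (measure_ne_top μ _))
  let J : (ι → ℝ) →ₗ[ℝ] Lp ℝ p μ :=
    { toFun := fun a => (hmem a).toLp _
      map_add' := fun a b => by
        rw [← MemLp.toLp_add]
        congr 1
        funext x
        simp only [phi, Pi.add_apply]
        rw [← Finset.sum_add_distrib]
        refine Finset.sum_congr rfl fun k _ => ?_
        by_cases h : x ∈ S k
        · rw [indicator_of_mem h, indicator_of_mem h, indicator_of_mem h]
          ring
        · rw [indicator_of_notMem h, indicator_of_notMem h, indicator_of_notMem h, add_zero]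
      map_smul' := fun t a => by
        rw [RingHom.id_apply, ← MemLp.toLp_const_smul]
        congr 1
        funext x
        simp only [phi, Pi.smul_apply, smul_eq_mul]
        rw [Finset.mul_sum]
        refine Finset.sum_congr rfl fun k _ => ?_
        by_cases h : x ∈ S k
        · rw [indicator_of_mem h, indicator_of_mem h]
          ring
        · rw [indicator_of_notMem h, indicator_of_notMem h, mul_zero] }
  have hJ : ∀ a, J a =ᵐ[μ] phi S A a := fun a => (hmem a).coeFn_toLp
  have hint : ∀ f : Lp ℝ p μ, Integrable f μ := fun f => (Lp.memLp f).integrable hp1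
  let Q : Lp ℝ p μ →ₗ[ℝ] (ι → ℝ) :=
    { toFun := fun f k => B * ∫ x in S k, f x ∂μ
      map_add' := fun f g => by
        funext k
        rw [Pi.add_apply, ← mul_add, ← integral_add (hint f).integrableOn (hint g).integrableOn]
        congr 1
        exact integral_congr_ae (ae_restrict_of_ae (Lp.coeFn_add f g))
      map_smul' := fun t f => by
        funext k
        have e1 : ∫ x in S k, (t • f : Lp ℝ p μ) x ∂μ = t * ∫ x in S k, f x ∂μ := by
          rw [integral_congr_ae (ae_restrict_of_ae (Lp.coeFn_smul t f)), ← integral_const_mul]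
          rfl
        show B * ∫ x in S k, (t • f : Lp ℝ p μ) x ∂μ = t * (B * ∫ x in S k, f x ∂μ)
        rw [e1]
        ring }
  have hQ : ∀ f k, Q f k = B * ∫ x in S k, f x ∂μ := fun f k => rfl
  refine ⟨J, Q, ?_, ?_, ?_⟩
  · intro a
    funext k
    rw [hQ, integral_congr_ae (ae_restrict_of_ae (hJ a)),
      setIntegral_congr_fun (hS k) (fun x hx => phi_on S hd A a k x hx), setIntegral_const, hμ,
      smul_eq_mul]
    linear_combination a k * hABc
  · intro a
    rw [norm_eq μ p hp]
    refine le_of_eq ?_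
    rw [← hr]
    congr 1
    have h1 : ∫ x, ‖J a x‖ ^ r ∂μ = ∫ x, ∑ k, (S k).indicator (fun _ => |a k| ^ r * A ^ r) x ∂μ := by
      refine integral_congr_ae ?_
      filter_upwards [hJ a] with x hx
      rw [hx, phi_norm S hd A hA0.le a r hr0]
    rw [h1, integral_finsetSum]
    · refine Finset.sum_congr rfl fun k _ => ?_
      rw [integral_indicator_const _ (hS k), hμ, hAr, smul_eq_mul]
      field_simp
    · intro k _
      exact (integrable_const _).indicator (hS k)
  · intro f
    rw [norm_eq μ p hp]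
    have hfr : Integrable (fun x => ‖f x‖ ^ r) μ := (Lp.memLp f).integrable_norm_rpow hp0 hp
    refine Real.rpow_le_rpow (Finset.sum_nonneg fun k _ => Real.rpow_nonneg (abs_nonneg _) _) ?_
      (by positivity)
    have h1 : ∀ k, |Q f k| ^ r ≤ ∫ x in S k, ‖f x‖ ^ r ∂μ := by
      intro k
      have hne : μ (S k) ≠ 0 := by
        intro h0
        have := hμ k
        rw [Measure.real, h0] at this
        simp at this
        linarith
      have hj := (convexOn_rpow hr1).map_set_average_le (μ := μ) (t := S k)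
        (f := fun x => ‖f x‖)
        (Real.continuous_rpow_const hr0.le).continuousOn isClosed_Ici hne (measure_ne_top μ _)
        (Filter.Eventually.of_forall fun x => norm_nonneg _) (hint f).norm.integrableOn
        hfr.integrableOn
      rw [setAverage_eq, setAverage_eq, hμ, smul_eq_mul, smul_eq_mul] at hj
      have h2 : |∫ x in S k, f x ∂μ| ≤ ∫ x in S k, ‖f x‖ ∂μ := by
        rw [← Real.norm_eq_abs]
        exact norm_integral_le_integral_norm _
      have h3 : 0 ≤ ∫ x in S k, ‖f x‖ ∂μ := integral_nonneg fun x => norm_nonneg _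
      rw [hQ, abs_mul, abs_of_pos hB0, Real.mul_rpow hB0.le (abs_nonneg _), hBr]
      rw [Real.mul_rpow (inv_nonneg.2 hc.le) h3, Real.inv_rpow hc.le] at hj
      have h4 : |∫ x in S k, f x ∂μ| ^ r ≤ (∫ x in S k, ‖f x‖ ∂μ) ^ r :=
        Real.rpow_le_rpow (abs_nonneg _) h2 hr0.le
      have h5 : 0 < c * (c ^ r)⁻¹ := mul_pos hc (inv_pos.2 (Real.rpow_pos_of_pos hc _))
      calc c * (c ^ r)⁻¹ * |∫ x in S k, f x ∂μ| ^ r
          ≤ c * (c ^ r)⁻¹ * (∫ x in S k, ‖f x‖ ∂μ) ^ r := mul_le_mul_of_nonneg_left h4 h5.le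
        _ = c * ((c ^ r)⁻¹ * (∫ x in S k, ‖f x‖ ∂μ) ^ r) := by ring
        _ ≤ c * (c⁻¹ * ∫ x in S k, ‖f x‖ ^ r ∂μ) := mul_le_mul_of_nonneg_left hj hc.le
        _ = ∫ x in S k, ‖f x‖ ^ r ∂μ := by
            field_simp
    refine (Finset.sum_le_sum fun k _ => h1 k).trans ?_
    rw [← integral_iUnion_fintype hS hd (fun k => hfr.integrableOn)]
    exact setIntegral_le_integral hfr
      (Filter.Eventually.of_forall fun x => Real.rpow_nonneg (norm_nonneg _) _)

theorem lpEmb : Pool.Agent.W26.CT.S_LP := by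
  intro p _ hp N
  rcases Nat.eq_zero_or_pos N with hN | hN
  · subst hN
    exact abs_lp _ p hp (fun _ : Fin 0 => ∅) (fun k => k.elim0) (fun k => k.elim0) 1 one_pos
      (fun k => k.elim0)
  · have hN' : (0 : ℝ) < N := by exact_mod_cast hN
    refine abs_lp _ p hp (fun k : Fin N => Ico ((k : ℝ) / N) (((k : ℝ) + 1) / N))
      (fun k => measurableSet_Ico) ?_ (1 / N) (by positivity) ?_
    · intro k l hkl
      rw [Function.onFun, Set.disjoint_left]
      rintro x ⟨h1, h2⟩ ⟨h3, h4⟩
      rw [div_le_iff₀ hN'] at h1 h3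
      rw [lt_div_iff₀ hN'] at h2 h4
      apply hkl
      ext
      have h5 : (k : ℝ) < l + 1 := by linarith
      have h6 : (l : ℝ) < k + 1 := by linarith
      have h7 : (k : ℕ) < l + 1 := by exact_mod_cast h5
      have h8 : (l : ℕ) < k + 1 := by exact_mod_cast h6
      omega
    · intro k
      rw [Measure.real, Measure.restrict_apply measurableSet_Ico]
      have hsub : Ico ((k : ℝ) / N) (((k : ℝ) + 1) / N) ⊆ Icc (0 : ℝ) 1 := by
        rintro x ⟨h1, h2⟩
        have h3 : (0 : ℝ) ≤ (k : ℝ) / N := by positivity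
        have h4 : ((k : ℝ) + 1) / N ≤ 1 := by
          rw [div_le_one hN']
          exact_mod_cast k.2
        exact ⟨h3.trans h1, h2.le.trans h4⟩
      rw [inter_eq_left.2 hsub, Real.volume_Ico, ENNReal.toReal_ofReal]
      · field_simp
        ring
      · rw [sub_nonneg]
        exact div_le_div_of_nonneg_right (by linarith) hN'.le

end Pool.Agent.W499.CT.LPart
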